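import Pool.Agent.Helper18.FM.GoalsA
import Pool.Agent.Helper57.RBC.Conc

/-!
# FM, packet FVC: the averages of the functions `v_j` tend to zero
-/

set_option autoImplicit false

open Complex Metric Set Filter Topology MeasureTheory
open scoped ContDiff ComplexConjugate ComplexOrder Manifold Matrix

namespace Pool.Agent.Helper66.FM.FVC

open Pool.Agent.Helper95.Lin Pool.Agent.Helper16.Abund Pool.Agent.Helper92.Orb
  Pool.Agent.Helper10.SP Pool.Agent.Helper95.RK Pool.Agent.Helper57.HS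
  Pool.Agent.Helper15.HS Pool.Agent.Helper15.GS Pool.Agent.Helper57.RBC Pool.Agent.Helper82.HB
open Pool.Agent.Helper10.RBC (dn S_RVZ)
open Pool.Agent.Helper29.HB (WL)
open Pool.Agent.Helper27.TRB (tw)
open Pool.Agent.Helper18.FM

universe u

theorem t (hFFM : S_FFM.{u}) (hMAXF : Pool.Agent.Helper95.HS.S_MAXF.{u})
    (hRWT : S_RWT.{u}) (hFVD : S_FVD.{u}) (hRLG : S_RLG.{u}) (hRVZ : S_RVZ.{u}) :
    Pool.Agent.Helper18.FM.S_FVC.{u} := by
  intro n m hn T G _ R H σ h χ c ψ D κ hκ s S N φ H' ε Q hS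
  have hT := D.ket.et.isOpen
  obtain ⟨K, hK, hW1, hW2⟩ := hRWT hn T R H D.ket κ hκ
  obtain ⟨-, hF2, -⟩ := hFFM T R H σ h χ c ψ D
  have htk : ∀ j, TkeS T R H (ε j) (tw χ (ε j) (H' j)) (Q j) := by
    intro j
    have h1 := hF2 (H' j) (ε j) (hS.fam j).ket (hS.eps j)
    refine ⟨h1.1, hS.eps j, hS.tke j, fun x hx => ?_⟩
    rw [h1.2 x, ← sub_sub]
    exact hS.epsH j x hx
  have hW := fun j => hW1 (ε j) _ (Q j) (htk j)
  have hV := fun j => hFVD T R (H' j) σ h χ (hS.fam j).ket D.sf D.pf D.trb κ hκ (S j) (ε j)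
    (Q j) (hS.eps j) (hS.sup j) (hS.tke j)
  set v : ℕ → Cn n → ℝ := fun j x => S j - ε j * tS σ h (Q j) x with hv
  have hvI : ∀ j, InvF T R (v j) := fun j => (hV j).1
  have hv0 : ∀ j, ∀ x ∈ T, 0 ≤ v j x := fun j => (hV j).2.1
  have hvl : ∀ j, ∀ x ∈ T, (trL (Q j) (v j) x).re ≤ v j x := fun j => (hV j).2.2.1
  have hvM : ∀ j, ∀ x ∈ T, v j x ≤ s + 1 := by
    intro j x hx
    have h1 : 0 ≤ tS σ h (Q j) x :=
      tr_mul_nonneg ((D.sf.posDef x hx).posSemidef.mul_mul_conjTranspose_same (σ x))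
        ((hS.tke j).ket.posDef x hx).posSemidef.inv
    have h2 := mul_nonneg (hS.eps j).le h1
    have h3 := hS.S_le j
    have h4 : 1 / ((j : ℝ) + 1) ≤ 1 := by
      rw [div_le_one (by positivity)]
      have : (0 : ℝ) ≤ j := Nat.cast_nonneg j
      linarith
    show S j - ε j * tS σ h (Q j) x ≤ s + 1
    linarith
  -- minimum points
  have hmin : ∀ j, ∃ x ∈ T, ∀ y ∈ T, v j x ≤ v j y := by
    intro j
    obtain ⟨x, hx, hm, -⟩ := hMAXF T R D.ket.et (fun x => - v j x) ⟨(hvI j).1.neg,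
      fun γ x y hxy => by
        have := (hvI j).2 γ x y hxy
        simp only
        rw [this]⟩
    exact ⟨x, hx, fun y hy => by
      have := hm y hy
      linarith⟩
  choose z hz hzm using hmin
  set δ : ℕ → ℝ := fun j => 1 / ((j : ℝ) + 1) with hδ
  have hδ0 : ∀ j, 0 < δ j := fun j => by
    simp only [hδ]
    positivity
  have hδ1 : ∀ j, δ j ≤ 1 := fun j => by
    simp only [hδ]
    rw [div_le_one (by positivity)]
    have : (0 : ℝ) ≤ j := Nat.cast_nonneg j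
    linarith
  set η : ℕ → ℝ := fun j => v j (z j) + δ j with hη
  have hη0 : ∀ j, 0 < η j := fun j => add_pos_of_nonneg_of_pos (hv0 j _ (hz j)) (hδ0 j)
  have hη1 : ∀ j, η j ≤ 2 * δ j := by
    intro j
    obtain ⟨x, hx, hxs⟩ := hS.m_ge j
    have h1 := hzm j x hx
    have h2 : v j x ≤ δ j := by
      have h3 := hS.S_le j
      show S j - ε j * tS σ h (Q j) x ≤ 1 / ((j : ℝ) + 1)
      have h4 : s ≤ ε j * tS σ h (Q j) x := hxs
      linarith
    show v j (z j) + δ j ≤ 2 * δ j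
    linarith
  have hδlim : Tendsto δ atTop (𝓝 0) := tendsto_one_div_add_atTop_nhds_zero_nat
  have hηlim : Tendsto η atTop (𝓝 0) := by
    have h1 : Tendsto (fun j => 2 * δ j) atTop (𝓝 0) := by
      have := hδlim.const_mul 2
      rwa [mul_zero] at this
    exact squeeze_zero (fun j => (hη0 j).le) hη1 h1
  refine hRVZ T R H D.ket κ hκ K (s + 1) K⁻¹ (inv_pos.2 hK) δ η v Q
    (fun j => (hS.tke j).ket) (fun j => (hW j).1) ?_ hvI (fun j x hx => ⟨hv0 j x hx, hvM j x hx⟩)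
    (fun j => ⟨hδ0 j, hδ1 j, hη0 j⟩) hηlim ?_ ?_ ?_
  · intro C hC hCc
    obtain ⟨B, hB⟩ := hW2 C hC hCc
    exact ⟨B, fun j => hB (ε j) _ (Q j) (htk j)⟩
  · intro j x hx
    have := hzm j x hx
    show v j (z j) + δ j ≤ v j x + δ j
    linarith
  · intro j
    have hpos : ∀ x ∈ T, 0 < v j x + δ j := fun x hx =>
      add_pos_of_nonneg_of_pos (hv0 j x hx) (hδ0 j)
    have hI : InvF T R (fun x => (v j x + δ j)⁻¹) := by
      refine ⟨((hvI j).1.add contDiffOn_const).inv fun x hx => (hpos x hx).ne', fun γ x y hxy => ?_⟩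
      have := (hvI j).2 γ x y hxy
      simp only
      rw [this]
    have hlg := hRLG T R (Q j) (hS.tke j).ket κ hκ (v j) (hvI j) (hv0 j) (hvl j) (δ j) (hδ0 j)
    have h1 := (hW j).2.2.2 (fun x => (v j x + δ j)⁻¹) hI (fun x hx => inv_pos.2 (hpos x hx))
      hlg.1 (z j) (hz j)
    have h2 : avE T κ (Q j) (fun x => η j / (v j x + δ j)) =
        η j * avE T κ (Q j) (fun x => (v j x + δ j)⁻¹) := by
      rw [← avE_const_mul]
      congr 1
    rw [h2]
    have h3 : (η j)⁻¹ ≤ K * avE T κ (Q j) (fun x => (v j x + δ j)⁻¹) := h1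
    have h4 := mul_le_mul_of_nonneg_left h3 (hη0 j).le
    rw [mul_inv_cancel₀ (hη0 j).ne'] at h4
    rw [inv_le_iff_one_le_mul₀ hK]
    linarith
  · intro j
    exact (hRLG T R (Q j) (hS.tke j).ket κ hκ (v j) (hvI j) (hv0 j) (hvl j) (δ j) (hδ0 j)).2

end Pool.Agent.Helper66.FM.FVC
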