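import Pool.Agent.Helper18.FM.GoalsB
import Pool.Agent.Helper15.RBC.NULR

/-!
# FM, packet FNU: the nullity (pointwise algebra)
-/

set_option autoImplicit false

open Complex Metric Set Filter Topology MeasureTheory
open scoped ContDiff ComplexConjugate ComplexOrder Manifold Matrix

namespace Pool.Agent.Helper66.FM.FNU

open Pool.Agent.Helper25.HS (TT TT_add3 TT_add4 TT_smul1 TT_smul2 TT_smul3 TT_smul4 TT_conj
  polar psd_small)
open Pool.Agent.Helper15.RBC (TT_P1 TT_P2 TT_single TT_swap TT_cj)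

variable {m : ℕ}

theorem TT_zero1 (R : Fin m → Fin m → Fin m → Fin m → ℂ) (b c d : Fin m → ℂ) :
    TT R 0 b c d = 0 := by
  have := TT_smul1 (R := R) 0 0 b c d
  simpa using this

theorem sum_pairs (F : Fin m → Fin m → Fin m → Fin m → ℂ) :
    ∑ i, ∑ j, ∑ k, ∑ l, F i j k l = ∑ i, ∑ j, ∑ k, ∑ l, F k l i j := by
  calc ∑ i, ∑ j, ∑ k, ∑ l, F i j k l = ∑ i, ∑ k, ∑ j, ∑ l, F i j k l :=
        Finset.sum_congr rfl fun i _ => Finset.sum_comm
    _ = ∑ k, ∑ i, ∑ j, ∑ l, F i j k l := Finset.sum_comm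
    _ = ∑ k, ∑ i, ∑ l, ∑ j, F i j k l :=
        Finset.sum_congr rfl fun k _ => Finset.sum_congr rfl fun i _ => Finset.sum_comm
    _ = ∑ k, ∑ l, ∑ i, ∑ j, F i j k l := Finset.sum_congr rfl fun k _ => Finset.sum_comm

theorem TT_pairs (R : Fin m → Fin m → Fin m → Fin m → ℂ) (a b c d : Fin m → ℂ) :
    TT (fun i j k l => R k l i j) a b c d = TT R c d a b := by
  unfold TT
  rw [sum_pairs]
  refine Finset.sum_congr rfl fun i _ => Finset.sum_congr rfl fun j _ =>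
    Finset.sum_congr rfl fun k _ => Finset.sum_congr rfl fun l _ => ?_
  ring

/-- the contraction with `X` twice -/
noncomputable def Ph (X : Matrix (Fin m) (Fin m) ℂ) (R : Fin m → Fin m → Fin m → Fin m → ℂ) : ℂ :=
  ∑ i, ∑ j, ∑ k, ∑ l, X j i * X l k * R i j k l

theorem Ph_pairs (X : Matrix (Fin m) (Fin m) ℂ) (R : Fin m → Fin m → Fin m → Fin m → ℂ) :
    Ph X (fun i j k l => R k l i j) = Ph X R := by
  unfold Ph
  rw [sum_pairs]
  refine Finset.sum_congr rfl fun i _ => Finset.sum_congr rfl fun j _ =>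
    Finset.sum_congr rfl fun k _ => Finset.sum_congr rfl fun l _ => ?_
  ring

theorem Ph_1 {X P : Matrix (Fin m) (Fin m) ℂ} (hXP : X * P = X)
    (R : Fin m → Fin m → Fin m → Fin m → ℂ) :
    Ph X (fun i j k l => ∑ p, P i p * R p j k l) = Ph X R := by
  have e1 : ∀ j p, X j p = ∑ i, X j i * P i p := by
    intro j p
    rw [← Matrix.mul_apply, hXP]
  have e2 : Ph X (fun i j k l => ∑ p, P i p * R p j k l) =
      ∑ i, ∑ j, ∑ k, ∑ l, ∑ p, X j i * P i p * X l k * R p j k l := by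
    unfold Ph
    refine Finset.sum_congr rfl fun i _ => Finset.sum_congr rfl fun j _ =>
      Finset.sum_congr rfl fun k _ => Finset.sum_congr rfl fun l _ => ?_
    simp only [Finset.mul_sum]
    refine Finset.sum_congr rfl fun p _ => ?_
    ring
  have e3 : Ph X R = ∑ p, ∑ j, ∑ k, ∑ l, ∑ i, X j i * P i p * X l k * R p j k l := by
    unfold Ph
    refine Finset.sum_congr rfl fun p _ => Finset.sum_congr rfl fun j _ =>
      Finset.sum_congr rfl fun k _ => Finset.sum_congr rfl fun l _ => ?_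
    rw [← Finset.sum_mul, ← Finset.sum_mul, ← e1]
  rw [e2, e3]
  calc ∑ i, ∑ j, ∑ k, ∑ l, ∑ p, X j i * P i p * X l k * R p j k l
      = ∑ i, ∑ j, ∑ k, ∑ p, ∑ l, X j i * P i p * X l k * R p j k l := by
        refine Finset.sum_congr rfl fun i _ => Finset.sum_congr rfl fun j _ =>
          Finset.sum_congr rfl fun k _ => Finset.sum_comm
    _ = ∑ i, ∑ j, ∑ p, ∑ k, ∑ l, X j i * P i p * X l k * R p j k l := by
        refine Finset.sum_congr rfl fun i _ => Finset.sum_congr rfl fun j _ => Finset.sum_comm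
    _ = ∑ i, ∑ p, ∑ j, ∑ k, ∑ l, X j i * P i p * X l k * R p j k l := by
        refine Finset.sum_congr rfl fun i _ => Finset.sum_comm
    _ = ∑ p, ∑ i, ∑ j, ∑ k, ∑ l, X j i * P i p * X l k * R p j k l := Finset.sum_comm
    _ = ∑ p, ∑ j, ∑ i, ∑ k, ∑ l, X j i * P i p * X l k * R p j k l := by
        refine Finset.sum_congr rfl fun p _ => Finset.sum_comm
    _ = ∑ p, ∑ j, ∑ k, ∑ i, ∑ l, X j i * P i p * X l k * R p j k l := by
        refine Finset.sum_congr rfl fun p _ => Finset.sum_congr rfl fun j _ => Finset.sum_comm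
    _ = ∑ p, ∑ j, ∑ k, ∑ l, ∑ i, X j i * P i p * X l k * R p j k l := by
        refine Finset.sum_congr rfl fun p _ => Finset.sum_congr rfl fun j _ =>
          Finset.sum_congr rfl fun k _ => Finset.sum_comm

theorem Ph_2 {X P : Matrix (Fin m) (Fin m) ℂ} (hXP : Pᴴ * X = X)
    (R : Fin m → Fin m → Fin m → Fin m → ℂ) :
    Ph X (fun i j k l => ∑ q, R i q k l * conj (P j q)) = Ph X R := by
  have e1 : ∀ q i, X q i = ∑ j, conj (P j q) * X j i := by
    intro q i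
    conv_lhs => rw [← hXP]
    rw [Matrix.mul_apply]
    rfl
  have e2 : Ph X (fun i j k l => ∑ q, R i q k l * conj (P j q)) =
      ∑ i, ∑ j, ∑ k, ∑ l, ∑ q, conj (P j q) * X j i * X l k * R i q k l := by
    unfold Ph
    refine Finset.sum_congr rfl fun i _ => Finset.sum_congr rfl fun j _ =>
      Finset.sum_congr rfl fun k _ => Finset.sum_congr rfl fun l _ => ?_
    simp only [Finset.mul_sum]
    refine Finset.sum_congr rfl fun p _ => ?_
    ring
  have e3 : Ph X R = ∑ i, ∑ q, ∑ k, ∑ l, ∑ j, conj (P j q) * X j i * X l k * R i q k l := by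
    unfold Ph
    refine Finset.sum_congr rfl fun p _ => Finset.sum_congr rfl fun j _ =>
      Finset.sum_congr rfl fun k _ => Finset.sum_congr rfl fun l _ => ?_
    rw [← Finset.sum_mul, ← Finset.sum_mul, ← e1]
  rw [e2, e3]
  refine Finset.sum_congr rfl fun i _ => ?_
  calc ∑ j, ∑ k, ∑ l, ∑ q, conj (P j q) * X j i * X l k * R i q k l
      = ∑ j, ∑ k, ∑ q, ∑ l, conj (P j q) * X j i * X l k * R i q k l := by
        refine Finset.sum_congr rfl fun j _ => Finset.sum_congr rfl fun k _ => Finset.sum_comm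
    _ = ∑ j, ∑ q, ∑ k, ∑ l, conj (P j q) * X j i * X l k * R i q k l := by
        refine Finset.sum_congr rfl fun j _ => Finset.sum_comm
    _ = ∑ q, ∑ j, ∑ k, ∑ l, conj (P j q) * X j i * X l k * R i q k l := Finset.sum_comm
    _ = ∑ q, ∑ k, ∑ j, ∑ l, conj (P j q) * X j i * X l k * R i q k l := by
        refine Finset.sum_congr rfl fun q _ => Finset.sum_comm
    _ = ∑ q, ∑ k, ∑ l, ∑ j, conj (P j q) * X j i * X l k * R i q k l := by
        refine Finset.sum_congr rfl fun q _ => Finset.sum_congr rfl fun k _ => Finset.sum_comm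

/-- FNU. -/
theorem t : Pool.Agent.Helper18.FM.S_FNU := by
  intro m R h P A V c c2 hhx hPP hPH hAP hc hcpsd hV hid hRBC hcr
  have hhu : IsUnit h.det := isUnit_iff_ne_zero.2 hhx.det_pos.ne'
  have hG : (h⁻¹).PosDef := hhx.inv
  have hPv : ∀ a : Fin m → ℂ, (a ᵥ* P) ᵥ* P = a ᵥ* P := fun a => by
    rw [Matrix.vecMul_vecMul, hPP]
  have hcj := TT_cj R c2
  -- the symmetries on the image of `P`
  have s13 : ∀ a b c d : Fin m → ℂ, TT R (a ᵥ* P) (b ᵥ* P) (c ᵥ* P) (d ᵥ* P) =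
      TT R (c ᵥ* P) (b ᵥ* P) (a ᵥ* P) (d ᵥ* P) := fun a b c d =>
    (hid _ (hV c) _ (hV d) a (b ᵥ* P)).2
  have s24 : ∀ a b c d : Fin m → ℂ, TT R (a ᵥ* P) (b ᵥ* P) (c ᵥ* P) (d ᵥ* P) =
      TT R (a ᵥ* P) (d ᵥ* P) (c ᵥ* P) (b ᵥ* P) := by
    intro a b c d
    have e1 := congrArg conj (s13 b a d c)
    rw [hcj, hcj] at e1
    exact e1
  -- the restricted tensor
  set R1 : Fin m → Fin m → Fin m → Fin m → ℂ := fun i j k l => ∑ p, P i p * R p j k l with hR1
  set R2 : Fin m → Fin m → Fin m → Fin m → ℂ :=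
    fun i j k l => ∑ q, R1 i q k l * conj (P j q) with hR2
  set R3 : Fin m → Fin m → Fin m → Fin m → ℂ := fun i j k l => R2 k l i j with hR3
  set R4 : Fin m → Fin m → Fin m → Fin m → ℂ := fun i j k l => ∑ p, P i p * R3 p j k l with hR4
  set R' : Fin m → Fin m → Fin m → Fin m → ℂ :=
    fun i j k l => ∑ q, R4 i q k l * conj (P j q) with hR'
  have hTT : ∀ a b c d : Fin m → ℂ, TT R' a b c d =
      TT R (a ᵥ* P) (b ᵥ* P) (c ᵥ* P) (d ᵥ* P) := by
    intro a b c d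
    rw [hR', ← TT_P2, hR4, ← TT_P1, hR3, TT_pairs, hR2, ← TT_P2, hR1, ← TT_P1, s13, s24]
  have h13 : ∀ i j k l, R' i j k l = R' k j i l := by
    intro i j k l
    rw [← TT_single R' i j k l, ← TT_single R' k j i l, hTT, hTT, s13]
  have h24 : ∀ i j k l, R' i j k l = R' i l k j := by
    intro i j k l
    rw [← TT_single R' i j k l, ← TT_single R' i l k j, hTT, hTT, s24]
  have hneg : ∀ v, (Pool.Agent.Helper16.HS.SGNP.QF R' v v v v).re ≤ 0 := by
    intro v
    have e1 : Pool.Agent.Helper16.HS.SGNP.QF R' v v v v = TT R' v v v v := rfl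
    rw [e1, hTT]
    exact hRBC (v ᵥ* P) (hPv v)
  -- the form `X = h⁻¹ A`
  set X : Matrix (Fin m) (Fin m) ℂ := h⁻¹ * A with hX
  have hXP : X * P = X := by rw [hX, Matrix.mul_assoc, hAP]
  -- `h⁻¹ P = Pᴴ h⁻¹ P`
  have hPi : h⁻¹ * P = Pᴴ * h⁻¹ := by
    have e2 : h⁻¹ * (P * h) * h⁻¹ = h⁻¹ * (h * Pᴴ) * h⁻¹ :=
      congrArg (fun M => h⁻¹ * M * h⁻¹) hPH
    rw [Matrix.mul_assoc, Matrix.mul_assoc, Matrix.mul_nonsing_inv _ hhu, Matrix.mul_one,
      ← Matrix.mul_assoc (h⁻¹) h, Matrix.nonsing_inv_mul _ hhu, Matrix.one_mul] at e2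
    exact e2
  have hK : Pᴴ * h⁻¹ * P = h⁻¹ * P := by
    rw [← hPi, Matrix.mul_assoc, hPP]
  -- `X - c h⁻¹ P ≥ 0`
  have hXc : (X - (c : ℂ) • (h⁻¹ * P)).PosSemidef := by
    have e1 := hcpsd.mul_mul_conjTranspose_same (h⁻¹)
    have e2 : h⁻¹ * (A * h - (c : ℂ) • (P * h)) * (h⁻¹)ᴴ =
        X - (c : ℂ) • (h⁻¹ * P) := by
      rw [hG.isHermitian.eq, Matrix.mul_sub, Matrix.sub_mul, Matrix.mul_smul, Matrix.smul_mul]
      congr 1
      · rw [← Matrix.mul_assoc, Matrix.mul_assoc, Matrix.mul_nonsing_inv _ hhu, Matrix.mul_one]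
      · rw [← Matrix.mul_assoc (h⁻¹) P, Matrix.mul_assoc, Matrix.mul_nonsing_inv _ hhu,
          Matrix.mul_one]
    rw [e2] at e1
    exact e1
  have hKh : (h⁻¹ * P)ᴴ = h⁻¹ * P := by
    rw [Matrix.conjTranspose_mul, hG.isHermitian.eq, hPi]
  have hXh : Xᴴ = X := by
    have e1 := hXc.isHermitian.eq
    rw [Matrix.conjTranspose_sub, Matrix.conjTranspose_smul, hKh] at e1
    have e3 : star (c : ℂ) = (c : ℂ) := Complex.conj_ofReal c
    rw [e3] at e1
    exact sub_left_injective e1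
  have hPX : Pᴴ * X = X := by
    have e1 := congrArg Matrix.conjTranspose hXP
    rw [Matrix.conjTranspose_mul, hXh] at e1
    exact e1
  have hpair : Ph X R' = Ph X R := by
    rw [hR', Ph_2 hPX, hR4, Ph_1 hXP, hR3, Ph_pairs, hR2, Ph_2 hPX, hR1, Ph_1 hXP]
  -- the subspace
  let F : Submodule ℂ (Fin m → ℂ) :=
    { carrier := {f | f ᵥ* P = f}
      add_mem' := fun {a b} ha hb => by
        show (a + b) ᵥ* P = a + b
        rw [Matrix.add_vecMul, ha, hb]
      zero_mem' := Matrix.zero_vecMul _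
      smul_mem' := fun z a ha => by
        show (z • a) ᵥ* P = z • a
        rw [Matrix.smul_vecMul, ha] }
  have hF : ∀ a : Fin m → ℂ, a ᵥ* P ∈ F := fun a => hPv a
  have hq : ∀ f ∈ F, TT R' f f f f = 0 := by
    intro f hf
    have hfP : f ᵥ* P = f := hf
    obtain ⟨d, hd, hpsd⟩ := psd_small hG f hfP
    rw [hK] at hpsd
    set e : ℝ := Real.sqrt c * d with he
    have hepos : 0 < e := mul_pos (Real.sqrt_pos.2 hc) hd
    have hP1 : (X - Matrix.vecMulVec (fun i => conj (((e : ℂ) • f) i)) ((e : ℂ) • f)).PosSemidef := by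
      have hc' : (0 : ℂ) ≤ (c : ℂ) := by exact_mod_cast hc.le
      have e1 := hXc.add (hpsd.smul hc')
      have hsq : ((Real.sqrt c : ℝ) : ℂ) * ((Real.sqrt c : ℝ) : ℂ) = (c : ℂ) := by
        rw [← Complex.ofReal_mul, Real.mul_self_sqrt hc.le]
      have e2 : X - (c : ℂ) • (h⁻¹ * P) + (c : ℂ) • (h⁻¹ * P -
          Matrix.vecMulVec (fun i => conj (((d : ℂ) • f) i)) ((d : ℂ) • f)) =
          X - Matrix.vecMulVec (fun i => conj (((e : ℂ) • f) i)) ((e : ℂ) • f) := by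
        have e3 : (c : ℂ) • Matrix.vecMulVec (fun i => conj (((d : ℂ) • f) i)) ((d : ℂ) • f) =
            Matrix.vecMulVec (fun i => conj (((e : ℂ) • f) i)) ((e : ℂ) • f) := by
          ext i j
          simp only [Matrix.smul_apply, Matrix.vecMulVec_apply, Pi.smul_apply, smul_eq_mul, map_mul,
            Complex.conj_ofReal, he, Complex.ofReal_mul]
          rw [← hsq]
          ring
        rw [smul_sub, e3]
        abel
      rw [e2] at e1
      exact e1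
    have e1 := Pool.Agent.Helper16.HS.SGNP.main_le R' h13 h24 hneg X ((e : ℂ) • f) hP1
    have e0 : (∑ i, ∑ j, ∑ k, ∑ l, X j i * X l k * R' i j k l).re = 0 := by
      have e3 : (∑ i, ∑ j, ∑ k, ∑ l, X j i * X l k * R' i j k l) = Ph X R' := rfl
      rw [e3, hpair]
      exact hcr
    rw [e0, mul_zero] at e1
    have e2 : 0 ≤ (TT R' ((e : ℂ) • f) ((e : ℂ) • f) ((e : ℂ) • f) ((e : ℂ) • f)).re := e1
    rw [TT_smul1, TT_smul2, TT_smul3, TT_smul4, Complex.conj_ofReal] at e2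
    have e3 : (e : ℂ) * ((e : ℂ) * ((e : ℂ) * ((e : ℂ) * TT R' f f f f))) =
        ((e ^ 4 : ℝ) : ℂ) * TT R' f f f f := by push_cast; ring
    rw [e3, Complex.re_ofReal_mul] at e2
    have e4 : (TT R' f f f f).re ≤ 0 := hneg f
    have e5 : 0 ≤ (TT R' f f f f).re := by
      have : 0 < e ^ 4 := by positivity
      exact nonneg_of_mul_nonneg_right e2 this
    have e6 : conj (TT R' f f f f) = TT R' f f f f := by
      rw [hTT, hfP]
      exact TT_conj (R := R) c2 f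
    have e7 : (TT R' f f f f).im = 0 := Complex.conj_eq_iff_im.1 e6
    exact Complex.ext (le_antisymm e4 e5) e7
  have hT := polar h13 h24 F hq
  have hz : ∀ a b c d : Fin m → ℂ, TT R (a ᵥ* P) (b ᵥ* P) (c ᵥ* P) (d ᵥ* P) = 0 := by
    intro a b c d
    have e1 := hT _ (hF a) _ (hF b) _ (hF c) _ (hF d)
    rw [hTT, hPv, hPv, hPv, hPv] at e1
    exact e1
  -- one slot orthogonal to `P`
  have hx0 : ∀ x ∈ V, ∀ y ∈ V, x ᵥ* P = 0 → ∀ a b : Fin m → ℂ, TT R (a ᵥ* P) b x y = 0 := by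
    intro x hx y hy hxP a b
    have e1 := (hid x hx y hy (a ᵥ* P) b).1
    rw [hPv] at e1
    rw [e1, (hid x hx y hy a (b ᵥ* P)).2, ← (hid _ (hV a) y hy x b).1, hxP, TT_zero1]
  have hsub : ∀ x ∈ V, x - x ᵥ* P ∈ V ∧ (x - x ᵥ* P) ᵥ* P = 0 := by
    intro x hx
    refine ⟨V.sub_mem hx (hV x), ?_⟩
    rw [Matrix.sub_vecMul, hPv, sub_self]
  intro x hx y hy a b
  obtain ⟨hx1, hx2⟩ := hsub x hx
  obtain ⟨hy1, hy2⟩ := hsub y hy
  have ex : x = x ᵥ* P + (x - x ᵥ* P) := by abel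
  have ey : y = y ᵥ* P + (y - y ᵥ* P) := by abel
  have f1 : TT R (a ᵥ* P) b x y = TT R (a ᵥ* P) b (x ᵥ* P) y := by
    conv_lhs => rw [ex]
    rw [TT_add3, hx0 _ hx1 y hy hx2, add_zero]
  have f2 : TT R (a ᵥ* P) b (x ᵥ* P) y = TT R (a ᵥ* P) (b ᵥ* P) (x ᵥ* P) y := by
    have e1 := (hid _ (hV x) y hy (a ᵥ* P) b).1
    rw [hPv] at e1
    exact e1
  have f3 : TT R (a ᵥ* P) (b ᵥ* P) (x ᵥ* P) (y - y ᵥ* P) = 0 := by
    have e1 := hx0 _ hy1 _ (hV x) hy2 b (a ᵥ* P)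
    have e2 := congrArg conj e1
    rw [hcj, map_zero] at e2
    exact e2
  have f4 : TT R (a ᵥ* P) (b ᵥ* P) (x ᵥ* P) y = 0 := by
    conv_lhs => rw [ey]
    rw [TT_add4, f3, hz, add_zero]
  rw [f1, f2, f4]

end Pool.Agent.Helper66.FM.FNU
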